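import Pool.Agent.Q189.AR6

/-!
# Projection areas of convex bodies in `ℝ⁵`: the eigenvalue condition is not sufficient

The vector `q` with `q_ij = 1` if `i, j` are neighbours in the pentagon `0 1 2 3 4` and
`q_ij = 12/5` otherwise satisfies the eigenvalue condition and is not realizable; the same holds
for every vector at distance at most `1/50` from it (in the maximum norm).

The proof uses the (sharp) inequality
`ℓ_j * area_ik ≤ 9/8 * (ℓ_k * area_ij + ℓ_i * area_jk)` between the widths and the areas of the
projections of a convex body (theorem `Q189.AR.width_area`). The definitions are in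
`Pool.Agent.Q189.ARDefs`.
-/

set_option autoImplicit false

namespace Pool.Agent.Results.MP_2d1483_gt.PentagonNotRealizable

open Q189.AR

theorem result : ∃ M₀ : Matrix (Fin 5) (Fin 5) ℝ,
    M₀ = !![0, 1, 12/5, 12/5, 1;
            1, 0, 1, 12/5, 12/5;
            12/5, 1, 0, 1, 12/5;
            12/5, 12/5, 1, 0, 1;
            1, 12/5, 12/5, 1, 0] ∧
    Hypothesis M₀ ∧ ¬ Realizable M₀ ∧
    ∀ M : Matrix (Fin 5) (Fin 5) ℝ, M.IsSymm → (∀ i, M i i = 0) →
      (∀ i j, |M i j - M₀ i j| ≤ 1/50) → Hypothesis M ∧ ¬ Realizable M := by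
  have hsymm : M0.IsSymm := by
    apply Matrix.IsSymm.ext
    intro i j
    fin_cases i <;> fin_cases j <;> simp [M0]
  have hdiag : ∀ i, M0 i i = 0 := by
    intro i
    fin_cases i <;> simp [M0]
  have h0 : ∀ i j, |M0 i j - M0 i j| ≤ 1/50 := by
    intro i j
    rw [sub_self, abs_zero]
    norm_num
  exact ⟨M0, rfl, hyp hsymm hdiag h0, not_real h0,
    fun M hs hd hM => ⟨hyp hs hd hM, not_real hM⟩⟩

end Pool.Agent.Results.MP_2d1483_gt.PentagonNotRealizable
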